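import Pool.Agent.H41.Lib.H326R2.Pi.Stmts
/-! # The measure as an infimum -/

open Filter

namespace Pool.Agent.H326R2.Pi

theorem finite_of_main (h : S_main) :
    Set.Finite {x : ℤ × ℤ | 0 < x.2 ∧ 0 < |Real.pi - (x.1 : ℝ) / (x.2 : ℝ)| ∧
        |Real.pi - (x.1 : ℝ) / (x.2 : ℝ)| < ((x.2 : ℝ)) ^ (-(6.05 : ℝ))} := by
  obtain ⟨q0, hq0⟩ := h
  apply Set.Finite.subset ((Set.finite_Icc (-(5 * (q0 : ℤ))) (5 * q0)).prod (Set.finite_Icc (0 : ℤ) q0))
  rintro ⟨p, q⟩ ⟨h1, -, h3⟩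
  simp only at h1 h3
  have hqR : (1 : ℝ) ≤ (q : ℝ) := by exact_mod_cast h1
  have hqpos : (0 : ℝ) < (q : ℝ) := by linarith
  have hq : q < q0 := by
    by_contra hcon
    push Not at hcon
    have h4 := hq0 q.toNat (by omega) p
    have h5 : ((q.toNat : ℕ) : ℝ) = (q : ℝ) := by
      have : ((q.toNat : ℕ) : ℤ) = q := Int.toNat_of_nonneg h1.le
      exact_mod_cast this
    rw [h5] at h4
    linarith
  have h6 : ((q : ℝ)) ^ (-(6.05 : ℝ)) ≤ 1 := Real.rpow_le_one_of_one_le_of_nonpos hqR (by norm_num)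
  have h7 : |Real.pi - p / q| < 1 := lt_of_lt_of_le h3 h6
  rw [abs_lt] at h7
  have hpi := Real.pi_lt_four
  have hpi0 := Real.pi_pos
  have h8 : (p : ℝ) < 5 * q := by
    have : (p : ℝ) / q < 5 := by linarith [h7.1]
    rwa [div_lt_iff₀ hqpos] at this
  have h9 : -(5 * (q : ℝ)) < p := by
    have : -5 < (p : ℝ) / q := by linarith [h7.2]
    rw [lt_div_iff₀ hqpos] at this
    linarith
  have h8' : p < 5 * q := by exact_mod_cast h8
  have h9' : -(5 * q) < p := by exact_mod_cast h9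
  simp only [Set.mem_prod, Set.mem_Icc]
  omega

theorem inf_of_main (h : S_main) :
    sInf {r : ℝ | 0 < r ∧
      Set.Finite {x : ℤ × ℤ | 0 < x.2 ∧
        0 < |Real.pi - (x.1 : ℝ) / (x.2 : ℝ)| ∧
        |Real.pi - (x.1 : ℝ) / (x.2 : ℝ)| < ((x.2 : ℝ)) ^ (-r)}} ≤ 6.05 := by
  apply csInf_le ⟨0, fun r hr => hr.1.le⟩
  exact ⟨by norm_num, finite_of_main h⟩

end Pool.Agent.H326R2.Pi
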