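import Pool.Agent.H41.Lib.H326R2.Pi.Stmts
/-! Task T2: `S_high`. -/

open Polynomial Filter

namespace Pool.Agent.H326R2.Pi

namespace T2

/-- the pair `(U_l, -4 U_{l-1})` -/
noncomputable def UV : ℕ → ℤ[X] × ℤ[X]
  | 0 => (0, 1)
  | l + 1 => ((X ^ 2 - 4) * (UV l).1 + (UV l).2, -4 * (UV l).1)

noncomputable def U (l : ℕ) : ℤ[X] := (UV l).1
noncomputable def V (l : ℕ) : ℤ[X] := (UV l).2
noncomputable def K (l : ℕ) : ℤ[X] := (X ^ 2 - 4) * U l + 2 * V l

lemma U0 : U 0 = 0 := rfl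
lemma V0 : V 0 = 1 := rfl
lemma Us (l : ℕ) : U (l + 1) = (X ^ 2 - 4) * U l + V l := rfl
lemma Vs (l : ℕ) : V (l + 1) = -4 * U l := rfl

lemma dX2 (c : ℕ) [c.AtLeastTwo] : derivative (X ^ 2 - (OfNat.ofNat c : ℤ[X])) = 2 * X := by
  rw [derivative_sub, derivative_X_pow, derivative_ofNat]
  simp

lemma two_cancel {a b : ℤ[X]} (h : 2 * a = 2 * b) : a = b := by
  have : (2 : ℤ[X]) ≠ 0 := by norm_num
  exact mul_left_cancel₀ this h

lemma key (l : ℕ) :
    derivative (K l) = 2 * (l : ℤ[X]) * X * U l ∧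
    (X ^ 2 - 8) * derivative (X * U l) + X * (X * U l) = 2 * (l : ℤ[X]) * K l := by
  induction l with
  | zero => simp [K, U0, V0]
  | succ l ih =>
    obtain ⟨h1, h2⟩ := ih
    unfold K at h1 h2 ⊢
    simp only [derivative_add, derivative_mul, derivative_X, dX2, Us, Vs, derivative_neg,
      derivative_ofNat, derivative_sub, derivative_X_pow] at h1 h2 ⊢
    push_cast at h1 h2 ⊢
    simp only [map_natCast, Nat.cast_ofNat, Nat.add_one_sub_one, pow_one, sub_zero, zero_mul,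
      zero_add, mul_zero, add_zero, neg_zero, one_mul, map_ofNat, Nat.reduceSub] at h1 h2 ⊢
    constructor
    · apply two_cancel
      linear_combination (X ^ 2 - 4) * h1 + X * h2
    · apply two_cancel
      linear_combination (X * (X ^ 2 - 8)) * h1 + (X ^ 2 - 4) * h2

lemma A_monic (c : ℤ) : (X ^ 2 - C c : ℤ[X]).Monic := monic_X_pow_sub_C c (by norm_num)

lemma A_deg (c : ℤ) : (X ^ 2 - C c : ℤ[X]).natDegree = 2 := natDegree_X_pow_sub_C

lemma C4 : (4 : ℤ[X]) = C 4 := by simp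
lemma C8 : (8 : ℤ[X]) = C 8 := by simp

lemma Udeg (l : ℕ) : (U (l + 1)).Monic ∧ (U (l + 1)).natDegree = 2 * l ∧
    (U l).natDegree ≤ 2 * l := by
  induction l with
  | zero => 
    refine ⟨?_, ?_, ?_⟩ <;> simp [Us, U0, V0]
  | succ l ih =>
    obtain ⟨h1, h2, h3⟩ := ih
    have hm : ((X ^ 2 - 4) * U (l + 1)).Monic := by
      rw [C4]; exact (A_monic 4).mul h1
    have hd : ((X ^ 2 - 4) * U (l + 1)).natDegree = 2 * (l + 1) := by
      rw [C4, (A_monic 4).natDegree_mul h1, A_deg, h2]; ring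
    have hv : (V (l + 1)).natDegree ≤ 2 * l := by
      rw [Vs]
      refine natDegree_mul_le.trans ?_
      have : (-4 : ℤ[X]).natDegree = 0 := by
        rw [C4, ← C_neg, natDegree_C]
      omega
    have hlt : (V (l + 1)).natDegree < ((X ^ 2 - 4) * U (l + 1)).natDegree := by omega
    refine ⟨?_, ?_, ?_⟩
    · rw [Us (l + 1)]
      refine hm.add_of_left ?_
      exact degree_lt_degree hlt
    · rw [Us (l + 1), natDegree_add_eq_left_of_natDegree_lt hlt, hd]
    · omega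

lemma Kdeg (l : ℕ) : (K (l + 1)).Monic ∧ (K (l + 1)).natDegree = 2 * (l + 1) := by
  obtain ⟨h1, h2, h3⟩ := Udeg l
  have hm : ((X ^ 2 - 4) * U (l + 1)).Monic := by
    rw [C4]; exact (A_monic 4).mul h1
  have hd : ((X ^ 2 - 4) * U (l + 1)).natDegree = 2 * (l + 1) := by
    rw [C4, (A_monic 4).natDegree_mul h1, A_deg, h2]; ring
  have hv : (2 * V (l + 1)).natDegree ≤ 2 * l := by
    rw [Vs, ← mul_assoc]
    refine natDegree_mul_le.trans ?_
    have : (2 * -4 : ℤ[X]).natDegree = 0 := by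
      have : (2 * -4 : ℤ[X]) = C (-8) := by
        rw [C_neg, ← C8]; ring
      rw [this, natDegree_C]
    omega
  have hlt : (2 * V (l + 1)).natDegree < ((X ^ 2 - 4) * U (l + 1)).natDegree := by omega
  refine ⟨?_, ?_⟩
  · exact hm.add_of_left (degree_lt_degree hlt)
  · unfold K
    rw [natDegree_add_eq_left_of_natDegree_lt hlt, hd]

lemma LL_pow (m : ℕ) (c : ℤ) (G : ℤ[X]) :
    LL m (C c * ((X ^ 2 - 8) ^ m * G)) =
      C c * (X ^ 2 - 8) ^ m * ((X ^ 2 - 8) * derivative G + X * G) := by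
  unfold LL
  rw [derivative_C_mul, derivative_mul, derivative_pow, dX2]
  cases m with
  | zero => simp; ring
  | succ m => 
    simp only [Nat.add_sub_cancel, map_natCast]
    push_cast
    ring

end T2

open T2

theorem T2 : S_high := by
  intro m N L hm hmN hL l hl
  rcases Nat.eq_zero_or_pos l with rfl | hlp
  · refine ⟨(X ^ 2 - 8) ^ m, ?_, ?_, 1, 0, by simp, ?_⟩
    · rw [C8]; exact (A_monic 8).pow m
    · rw [C8, (A_monic 8).natDegree_pow, A_deg]; ring
    · simp [LL]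
  · obtain ⟨l, rfl⟩ : ∃ l', l = l' + 1 := ⟨l - 1, by omega⟩
    obtain ⟨L', hL'⟩ := hL (2 * (l + 1)) (by omega) hl
    obtain ⟨k1, k2⟩ := Kdeg l
    refine ⟨(X ^ 2 - 8) ^ m * K (l + 1), ?_, ?_, 0,
      C ((8 ^ m * L' : ℕ) : ℤ) * ((X ^ 2 - 8) ^ m * (X * U (l + 1))), ?_, ?_⟩
    · rw [C8]; exact ((A_monic 8).pow m).mul k1
    · rw [C8, ((A_monic 8).pow m).natDegree_mul k1, (A_monic 8).natDegree_pow, A_deg, k2]; ring
    · refine natDegree_mul_le.trans ?_
      rw [natDegree_C, zero_add]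
      refine natDegree_mul_le.trans ?_
      have h1 : (((X ^ 2 - 8) ^ m : ℤ[X])).natDegree = 2 * m := by
        rw [C8, (A_monic 8).natDegree_pow, A_deg]; ring
      have h2 : (X * U (l + 1)).natDegree ≤ 1 + 2 * l := by
        refine natDegree_mul_le.trans ?_
        rw [natDegree_X, (Udeg l).2.1]
      omega
    · rw [LL_pow, (key (l + 1)).2, hL']
      simp only [C_0, zero_mul, sub_zero]
      push_cast
      simp only [map_mul, map_pow, map_ofNat, map_natCast]
      ring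

end Pool.Agent.H326R2.Pi
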