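import Pool.Agent.H41.Lib.H326R2.Pi.Stmts
/-! T5 (helper930): integrality at good primes. -/

set_option autoImplicit false

namespace Pool.Agent.H326R2.Pi.T5

open Polynomial Pool.Agent.H326R2.Pi

theorem LL_pow {R : Type*} [CommRing R] (m j : ℕ) (Ψ : R[X]) :
    LL (m + j) ((X ^ 2 - 8) ^ j * Ψ) = (X ^ 2 - 8) ^ j * LL m Ψ := by
  have h8 : derivative (X ^ 2 - 8 : R[X]) = 2 * X := by
    rw [derivative_sub, derivative_X_pow, derivative_ofNat, sub_zero, Nat.cast_ofNat]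
    rw [show (C (2 : R)) = (2 : R[X]) from map_ofNat C 2]
    norm_num
  unfold LL
  rw [derivative_mul]
  cases j with
  | zero => simp
  | succ i =>
    rw [derivative_pow, h8]
    simp only [map_natCast, Nat.add_sub_cancel]
    push_cast
    ring

theorem LL_prod {R : Type*} [CommRing R] (m q D : ℕ) (h : 2 * (m : R[X]) - 1 = ((q + 1) * D : ℕ))
    (P K : R[X]) :
    LL m (P ^ (q + 1) * K) = P ^ (q + 1) * ((X ^ 2 - 8) * derivative K) +
      ((q + 1 : ℕ) : R[X]) * (K * P ^ q * (derivative P * (X ^ 2 - 8) - (D : R[X]) * X * P)) := by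
  unfold LL
  rw [h, derivative_mul, derivative_pow]
  simp only [map_natCast, Nat.add_sub_cancel]
  push_cast
  ring

theorem LL_map (m : ℕ) (Φ : ℤ[X]) :
    LL m (Φ.map (Int.castRingHom ℚ)) = (LL m Φ).map (Int.castRingHom ℚ) := by
  unfold LL
  simp [derivative_map]

theorem LL_add {R : Type*} [CommRing R] (m : ℕ) (F G : R[X]) : LL m (F + G) = LL m F + LL m G := by
  unfold LL
  rw [derivative_add]
  ring

theorem LL_C {R : Type*} [CommRing R] (m : ℕ) (c : R) (F : R[X]) :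
    LL m (C c * F) = C c * LL m F := by
  unfold LL
  rw [derivative_C_mul]
  ring

/-- antiderivative -/
theorem anti (M p : ℕ) (hp : M + 1 < p) (G : ℤ[X]) (hG : G.natDegree ≤ M) :
    ∃ K : ℤ[X], derivative K = C (((p - 1).factorial : ℕ) : ℤ) * G ∧ K.natDegree ≤ M + 1 := by
  refine ⟨∑ i ∈ Finset.range (M + 1),
    C ((((p - 1).factorial / (i + 1) : ℕ) : ℤ) * G.coeff i) * X ^ (i + 1), ?_, ?_⟩
  · have hG2 : G = ∑ i ∈ Finset.range (M + 1), C (G.coeff i) * X ^ i := by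
      exact G.as_sum_range_C_mul_X_pow' (Nat.lt_succ_of_le hG)
    conv_rhs => rw [hG2, Finset.mul_sum]
    rw [derivative_sum]
    refine Finset.sum_congr rfl fun i hi => ?_
    rw [Finset.mem_range] at hi
    rw [derivative_C_mul_X_pow, Nat.add_sub_cancel, ← mul_assoc, ← C_mul]
    congr 2
    have h1 : (i + 1) ∣ (p - 1).factorial := Nat.dvd_factorial (by omega) (by omega)
    have h2 : (((p - 1).factorial / (i + 1) : ℕ) : ℤ) * ((i + 1 : ℕ) : ℤ) =
        (((p - 1).factorial : ℕ) : ℤ) := by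
      exact_mod_cast Nat.div_mul_cancel h1
    rw [← h2]
    ring
  · apply natDegree_sum_le_of_forall_le
    intro i hi
    rw [Finset.mem_range] at hi
    exact (natDegree_C_mul_X_pow_le _ _).trans (by omega)

/-- a common multiple of `1..N` that is divisible by `p` at most once -/
theorem mult (p N : ℕ) (hp : p.Prime) (hN : N < p * p) :
    ∃ M : ℕ, ¬ p ∣ M ∧ ∀ j, 1 ≤ j → j ≤ N → j ∣ p * M := by
  obtain ⟨v, M, hM, hv⟩ := Nat.exists_eq_pow_mul_and_not_dvd (Nat.factorial_ne_zero N) p hp.ne_one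
  refine ⟨M, hM, fun j hj1 hjN => ?_⟩
  obtain ⟨e, i, hi, he⟩ := Nat.exists_eq_pow_mul_and_not_dvd (show j ≠ 0 by omega) p hp.ne_one
  have hi0 : 0 < i := by
    rcases Nat.eq_zero_or_pos i with h | h
    · exact absurd (h ▸ dvd_zero p) hi
    · exact h
  have he1 : e ≤ 1 := by
    by_contra hc
    push Not at hc
    have h1 : p ^ 2 ≤ p ^ e := Nat.pow_le_pow_right hp.pos hc
    have h2 : p ^ 2 * 1 ≤ p ^ e * i := Nat.mul_le_mul h1 hi0
    rw [← he] at h2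
    have h3 : p ^ 2 = p * p := sq p
    omega
  have hiM : i ∣ M := by
    have h1 : i ∣ p ^ v * M := by
      rw [← hv]
      exact (Dvd.intro_left _ he.symm).trans (Nat.dvd_factorial (by omega) hjN)
    have h2 : Nat.Coprime i (p ^ v) :=
      Nat.Coprime.pow_right v ((Nat.Prime.coprime_iff_not_dvd hp).2 hi).symm
    exact h2.dvd_of_dvd_mul_left h1
  rw [he]
  apply Nat.mul_dvd_mul _ hiM
  calc p ^ e ∣ p ^ 1 := pow_dvd_pow p he1
    _ = p := pow_one p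

theorem den_lemma (p : ℕ) (hp : p.Prime) (c : ℤ) (hc : ¬ (p : ℤ) ∣ c) (x : ℚ) (z : ℤ)
    (h : (c : ℚ) * x = z) : ¬ p ∣ x.den := by
  intro hd
  have h1 : c * x.num = z * x.den := by
    have h4 : (c : ℚ) * x.num = z * x.den := by
      rw [← h, ← Rat.mul_den_eq_num x]
      ring
    exact_mod_cast h4
  have h2 : (p : ℤ) ∣ c * x.num := by
    rw [h1]
    exact Dvd.dvd.mul_left (by exact_mod_cast hd) z
  have hp' : Prime (p : ℤ) := Nat.prime_iff_prime_int.1 hp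
  rcases hp'.dvd_or_dvd h2 with h3 | h3
  · exact hc h3
  · have h4 : p ∣ x.num.natAbs := Int.natCast_dvd.1 h3
    have h5 := x.reduced
    have h6 : p ∣ Nat.gcd x.num.natAbs x.den := Nat.dvd_gcd h4 hd
    rw [Nat.Coprime] at h5
    rw [h5] at h6
    exact hp.one_lt.ne' (Nat.dvd_one.1 h6)

theorem p_good (hT : S_term) (hU : S_uniq) : S_good := by
  intro n p A B D a b δ hn hp hp2 h3 h5 h4 hD hab h8 k Ψ hSol
  have hpodd : Odd p := hp.odd_of_ne_two hp2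
  have hp3 : 3 ≤ p := by
    have := hp.two_le
    omega
  obtain ⟨D', hD'⟩ := hD
  obtain ⟨p', hp'⟩ := hpodd
  obtain ⟨j, hj⟩ : ∃ j, δ = 2 * j + 1 := by
    have h1 : Odd (p * D) := by
      rw [Nat.odd_mul]
      exact ⟨⟨p', hp'⟩, ⟨D', hD'⟩⟩
    obtain ⟨e, he⟩ := h1
    refine ⟨e - 2 * n, ?_⟩
    omega
  obtain ⟨q, hq⟩ : ∃ q, p = q + 1 := ⟨p - 1, by omega⟩
  have hN : 4 * n + δ < p * p := by
    have h1 : 3 * p ≤ p * p := Nat.mul_le_mul_right p hp3
    omega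
  obtain ⟨M, hM, hmult⟩ := mult p (4 * n + δ) hp hN
  -- the polynomials
  obtain ⟨P1, hP1⟩ : ∃ P1 : ℤ[X], P1 = (X - 2) ^ A * (X - 3) ^ B := ⟨_, rfl⟩
  obtain ⟨Q1, hQ1⟩ : ∃ Q1 : ℤ[X], Q1 = (X - 2) ^ a * (X - 3) ^ b := ⟨_, rfl⟩
  have hX2 : (X - 2 : ℤ[X]).natDegree ≤ 1 := by
    have : (X - 2 : ℤ[X]) = X - C 2 := rfl
    rw [this, natDegree_X_sub_C]
  have hX3 : (X - 3 : ℤ[X]).natDegree ≤ 1 := by
    have : (X - 3 : ℤ[X]) = X - C 3 := rfl
    rw [this, natDegree_X_sub_C]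
  have hX8 : (X ^ 2 - 8 : ℤ[X]).natDegree ≤ 2 := by
    have : (X ^ 2 - 8 : ℤ[X]) = X ^ 2 - C 8 := rfl
    rw [this]
    refine (natDegree_sub_le _ _).trans ?_
    rw [natDegree_X_pow, natDegree_C]
    norm_num
  have hdP1 : P1.natDegree ≤ A + B := by
    rw [hP1]
    refine natDegree_mul_le.trans ?_
    have e1 := (natDegree_pow_le (p := (X - 2 : ℤ[X])) (n := A))
    have e2 := (natDegree_pow_le (p := (X - 3 : ℤ[X])) (n := B))
    have e3 : A * (X - 2 : ℤ[X]).natDegree ≤ A * 1 := Nat.mul_le_mul_left _ hX2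
    have e4 : B * (X - 3 : ℤ[X]).natDegree ≤ B * 1 := Nat.mul_le_mul_left _ hX3
    omega
  have hdQ1 : Q1.natDegree ≤ a + b := by
    rw [hQ1]
    refine natDegree_mul_le.trans ?_
    have e1 := (natDegree_pow_le (p := (X - 2 : ℤ[X])) (n := a))
    have e2 := (natDegree_pow_le (p := (X - 3 : ℤ[X])) (n := b))
    have e3 : a * (X - 2 : ℤ[X]).natDegree ≤ a * 1 := Nat.mul_le_mul_left _ hX2
    have e4 : b * (X - 3 : ℤ[X]).natDegree ≤ b * 1 := Nat.mul_le_mul_left _ hX3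
    omega
  have hdG : (Q1 * (X ^ 2 - 8) ^ j).natDegree ≤ a + b + 2 * j := by
    refine natDegree_mul_le.trans ?_
    have e1 := (natDegree_pow_le (p := (X ^ 2 - 8 : ℤ[X])) (n := j))
    have e2 : j * (X ^ 2 - 8 : ℤ[X]).natDegree ≤ j * 2 := Nat.mul_le_mul_left _ hX8
    omega
  obtain ⟨K, hK1, hK2⟩ := anti (a + b + 2 * j) p (by omega) _ hdG
  obtain ⟨Q', hQ'⟩ : ∃ Q' : ℤ[X], Q' = K * P1 ^ q *
    (derivative P1 * (X ^ 2 - 8) - (D : ℤ[X]) * X * P1) := ⟨_, rfl⟩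
  have hpAB : 8 * n = (q + 1) * (A + B) + a + b := by
    have : (q + 1) * (A + B) = p * A + p * B := by rw [hq]; ring
    omega
  have hdQ' : Q'.natDegree ≤ 2 * (2 * n + (j + 1)) + (4 * n + δ) := by
    rw [hQ']
    refine natDegree_mul_le.trans ?_
    have e1 : (K * P1 ^ q).natDegree ≤ (a + b + 2 * j + 1) + q * (A + B) := by
      refine natDegree_mul_le.trans ?_
      have e2 := (natDegree_pow_le (p := P1) (n := q))
      have e3 : q * P1.natDegree ≤ q * (A + B) := Nat.mul_le_mul_left _ hdP1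
      omega
    have e2 : (derivative P1 * (X ^ 2 - 8) - (D : ℤ[X]) * X * P1).natDegree ≤ A + B + 2 := by
      refine (natDegree_sub_le _ _).trans (max_le ?_ ?_)
      · refine natDegree_mul_le.trans ?_
        have e3 := natDegree_derivative_le P1
        omega
      · refine natDegree_mul_le.trans ?_
        have e3 : ((D : ℤ[X]) * X).natDegree ≤ 1 := by
          refine natDegree_mul_le.trans ?_
          rw [natDegree_natCast, natDegree_X]
        omega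
    have e3 : (q + 1) * (A + B) = q * (A + B) + (A + B) := by ring
    omega
  have h2m : 2 * (2 * n + (j + 1)) = (4 * n + δ) + 1 := by omega
  obtain ⟨k', Φ, hΦ1, hΦ2⟩ := hT (2 * n + (j + 1)) (4 * n + δ) (p * M) (by omega) (by omega)
    hmult Q' hdQ'
  obtain ⟨m', hm'⟩ : ∃ m', m' = 2 * n + (j + 1) := ⟨_, rfl⟩
  rw [← hm'] at hΦ2
  obtain ⟨f, hf⟩ : ∃ f : ℤ →+* ℚ, f = Int.castRingHom ℚ := ⟨_, rfl⟩
  obtain ⟨P1q, hP1q⟩ : ∃ P : ℚ[X], P = P1.map f := ⟨_, rfl⟩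
  obtain ⟨Q1q, hQ1q⟩ : ∃ P : ℚ[X], P = Q1.map f := ⟨_, rfl⟩
  obtain ⟨Kq, hKq⟩ : ∃ P : ℚ[X], P = K.map f := ⟨_, rfl⟩
  obtain ⟨Φq, hΦq⟩ : ∃ P : ℚ[X], P = Φ.map f := ⟨_, rfl⟩
  obtain ⟨Qy, hQy⟩ : ∃ P : ℚ[X], P = Q'.map f := ⟨_, rfl⟩
  have hPP : PP ℚ n = P1q ^ (q + 1) * Q1q := by
    unfold PP
    rw [hP1q, hQ1q, hP1, hQ1, h3, h5, hq]
    simp only [Polynomial.map_mul, Polynomial.map_pow, Polynomial.map_sub, Polynomial.map_X,
      Polynomial.map_ofNat]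
    rw [mul_pow, ← pow_mul, ← pow_mul, pow_add, pow_add]
    ring
  have hKd : derivative Kq = C (((p - 1).factorial : ℕ) : ℚ) * (Q1q * (X ^ 2 - 8) ^ j) := by
    rw [hKq, derivative_map, hK1, hQ1q]
    simp only [Polynomial.map_mul, Polynomial.map_pow, Polynomial.map_sub, Polynomial.map_X,
      Polynomial.map_ofNat, Polynomial.map_C, hf]
    simp
  have hQd : Qy = Kq * P1q ^ q * (derivative P1q * (X ^ 2 - 8) - (D : ℚ[X]) * X * P1q) := by
    rw [hQy, hQ', hKq, hP1q, derivative_map]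
    simp only [Polynomial.map_mul, Polynomial.map_pow, Polynomial.map_sub, Polynomial.map_X,
      Polynomial.map_ofNat, Polynomial.map_natCast]
  have hLΦ : LL m' Φq = 8 ^ m' * ((p * M : ℕ) : ℚ[X]) * (Qy - C (k' : ℚ) * (X ^ 2 - 8) ^ m') := by
    have ek : (Int.castRingHom ℚ) k' = (k' : ℚ) := rfl
    rw [hΦq, hf, LL_map, hΦ2, hQy, hf]
    simp only [Polynomial.map_mul, Polynomial.map_pow, Polynomial.map_sub, Polynomial.map_X,
      Polynomial.map_ofNat, Polynomial.map_natCast, Polynomial.map_C]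
    rw [ek]
  have hL1 : LL m' ((X ^ 2 - 8) ^ (j + 1) * Ψ) =
      (X ^ 2 - 8) ^ (j + 1) * (P1q ^ (q + 1) * Q1q - C (k : ℚ) * (X ^ 2 - 8) ^ (2 * n)) := by
    rw [hm', LL_pow, hSol, hPP]
  have hL2 : LL m' (P1q ^ (q + 1) * Kq) = P1q ^ (q + 1) * ((X ^ 2 - 8) *
      (C (((p - 1).factorial : ℕ) : ℚ) * (Q1q * (X ^ 2 - 8) ^ j))) + ((q + 1 : ℕ) : ℚ[X]) * Qy := by
    rw [LL_prod m' q D _ P1q Kq, hKd, hQd]
    have e1 : 2 * m' = p * D + 1 := by omega
    have e2 : 2 * (m' : ℚ[X]) = ((p * D + 1 : ℕ) : ℚ[X]) := by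
      rw [← e1]
      push_cast
      ring
    rw [e2, ← hq]
    push_cast
    ring
  obtain ⟨F0, hF0⟩ : ∃ F0 : ℚ, F0 = (((p - 1).factorial : ℕ) : ℚ) := ⟨_, rfl⟩
  rw [← hF0] at hL2
  obtain ⟨E, hE⟩ : ∃ E : ℚ[X], E = C (8 ^ m' * ((p : ℚ) * M) * F0) * ((X ^ 2 - 8) ^ (j + 1) * Ψ) +
    (C (-(8 ^ m' * ((p : ℚ) * M))) * (P1q ^ (q + 1) * Kq) + C (p : ℚ) * Φq) := ⟨_, rfl⟩
  have hE0 : E = 0 := by
    refine (hU m' E (-(8 ^ m' * ((p : ℚ) * M) * F0 * k + p * (8 ^ m' * ((p : ℚ) * M)) * k')) ?_).1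
    rw [hE, LL_add, LL_add, LL_C, LL_C, LL_C, hL1, hL2, hLΦ]
    have e1 : (X ^ 2 - 8 : ℚ[X]) ^ m' = (X ^ 2 - 8) ^ (j + 1) * (X ^ 2 - 8) ^ (2 * n) := by
      rw [← pow_add, hm']
      congr 1
      omega
    have e2 : ((q + 1 : ℕ) : ℚ[X]) = (p : ℚ[X]) := by rw [hq]
    rw [e1, e2]
    simp only [C_mul, C_add, C_neg, C_pow, map_natCast, map_ofNat, Nat.cast_mul]
    ring
  have hev := congrArg (eval 2) hE0
  rw [hE] at hev
  simp only [eval_add, eval_mul, eval_C, eval_pow, eval_sub, eval_X, eval_ofNat, eval_zero] at hev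
  have ev : ∀ P : ℤ[X], (P.map f).eval 2 = ((P.eval 2 : ℤ) : ℚ) := by
    intro P
    have h1 := Polynomial.eval_intCast_map f P 2
    rw [hf] at h1 ⊢
    simpa using h1
  rw [hP1q, hKq, hΦq, ev, ev, ev] at hev
  have hp0 : (p : ℚ) ≠ 0 := by exact_mod_cast hp.ne_zero
  apply den_lemma p hp (8 ^ m' * M * (p - 1).factorial * (-4) ^ (j + 1)) _ (Ψ.eval 2)
    (8 ^ m' * M * (P1.eval 2 ^ (q + 1) * K.eval 2) - Φ.eval 2)
  · apply mul_left_cancel₀ hp0
    push_cast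
    rw [hF0] at hev
    have e1 : (2 : ℚ) ^ 2 - 8 = -4 := by norm_num
    rw [e1] at hev
    linarith
  · have hpI : Prime (p : ℤ) := Nat.prime_iff_prime_int.1 hp
    intro hd
    have hnd2 : ¬ (p : ℤ) ∣ 2 := by
      intro h
      have h1 : p ∣ 2 := by exact_mod_cast h
      have := Nat.le_of_dvd (by norm_num) h1
      omega
    rcases hpI.dvd_or_dvd hd with h1 | h1
    · rcases hpI.dvd_or_dvd h1 with h2 | h2
      · rcases hpI.dvd_or_dvd h2 with h3' | h3'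
        · have h4' := hpI.dvd_of_dvd_pow h3'
          have h5' : (8 : ℤ) = 2 ^ 3 := by norm_num
          rw [h5'] at h4'
          exact hnd2 (hpI.dvd_of_dvd_pow h4')
        · exact hM (by exact_mod_cast h3')
      · have h3' : p ∣ (p - 1).factorial := by exact_mod_cast h2
        have h4' := (hp.dvd_factorial).1 h3'
        omega
    · have h4' := hpI.dvd_of_dvd_pow h1
      have h5' : (-4 : ℤ) = -(2 ^ 2) := by norm_num
      rw [h5', dvd_neg] at h4'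
      exact hnd2 (hpI.dvd_of_dvd_pow h4')

end Pool.Agent.H326R2.Pi.T5
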