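import Pool.Agent.H41.Lib.H326R2.Pi.Defs
/-!
# Irrationality measure of `π`: the statements of the tasks (Props)
-/

open Polynomial Filter

namespace Pool.Agent.H326R2.Pi

/-! ## Algebra: the operator `LL` -/

/-- `Q` (level `m`) is solvable with denominator `8^m L` -/
def Solv (m N L : ℕ) (Q : ℤ[X]) : Prop :=
  ∃ (k : ℤ) (Φ : ℤ[X]), Φ.natDegree ≤ 2 * m + N - 1 ∧
    LL m Φ = 8 ^ m * (L : ℤ[X]) * (Q - C k * (X ^ 2 - 8) ^ m)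

/-- odd basis elements -/
def S_odd : Prop := ∀ m N L : ℕ, 1 ≤ m → 2 * m ≤ N + 1 → (∀ j, 1 ≤ j → j ≤ N → j ∣ L) →
  ∀ k : ℕ, 2 * k + 1 ≤ 2 * m + N → Solv m N L (X * (X ^ 2 - 8) ^ k)

/-- low even basis elements -/
def S_low : Prop := ∀ m N L : ℕ, 1 ≤ m → 2 * m ≤ N + 1 → (∀ j, 1 ≤ j → j ≤ N → j ∣ L) →
  ∀ k : ℕ, k < m → Solv m N L ((X ^ 2 - 8) ^ k)

/-- high even basis elements: monic of degree `2m + 2l` -/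
def S_high : Prop := ∀ m N L : ℕ, 1 ≤ m → 2 * m ≤ N + 1 → (∀ j, 1 ≤ j → j ≤ N → j ∣ L) →
  ∀ l : ℕ, 2 * l ≤ N → ∃ B : ℤ[X], B.Monic ∧ B.natDegree = 2 * m + 2 * l ∧ Solv m N L B

/-- everything of degree at most `2m + N` is solvable -/
def S_term : Prop := ∀ m N L : ℕ, 1 ≤ m → 2 * m ≤ N + 1 → (∀ j, 1 ≤ j → j ≤ N → j ∣ L) →
  ∀ Q : ℤ[X], Q.natDegree ≤ 2 * m + N → Solv m N L Q

/-- uniqueness -/
def S_uniq : Prop := ∀ (m : ℕ) (Φ : ℚ[X]) (c : ℚ), LL m Φ = C c * (X ^ 2 - 8) ^ m → Φ = 0 ∧ c = 0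

/-- for a good prime `p` the value `Ψ(2)` is `p`-integral -/
def S_good : Prop := ∀ n p A B D a b δ : ℕ, 0 < n → p.Prime → p ≠ 2 → 3 * n = p * A + a →
  5 * n = p * B + b → 4 * n + δ = p * D → Odd D → a + b + δ < p → 8 * n < p * p →
  ∀ (k : ℤ) (Ψ : ℚ[X]), Sol n k Ψ → ¬ p ∣ (Ψ.eval 2).den

/-! ## Homogenisation -/

/-- `Hom d Φ = Σ_j φ_j a^j y^(d-j)` -/
noncomputable def Hom {R : Type*} [CommRing R] (a y : R[X]) (d : ℕ) (Φ : R[X]) : R[X] :=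
  ∑ j ∈ Finset.range (d + 1), C (Φ.coeff j) * a ^ j * y ^ (d - j)

/-- the homogenised equation -/
def S_hom : Prop := ∀ (R : Type) [CommRing R] (a y b : R[X]), a ^ 2 - 8 * y ^ 2 = b ^ 2 →
  derivative a * y - a * derivative y = b * derivative y →
  ∀ (m d : ℕ) (Φ : R[X]), Φ.natDegree ≤ d →
    b * (y * derivative (Hom a y d Φ) - (d : R[X]) * derivative y * Hom a y d Φ)
      = derivative y * (Hom a y (d + 1) (LL m Φ) + (2 * (m : R[X]) - 1) * a * Hom a y d Φ)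

/-! ## The prime 2 -/

/-- the uniformiser `1 + i` -/
def pg : GaussianInt := ⟨1, 1⟩

/-- integration over a 2-adic disc without poles -/
def S_disc : Prop := ∀ (N V U : GaussianInt[X]) (c d : ℕ) (u0 u1 : GaussianInt),
  V = 1 + C pg * U → C (2 ^ c : GaussianInt) ∣ derivative N * V - N * derivative V →
  V.eval 0 * u0 = 1 → V.eval 1 * u1 = 1 → N.natDegree + 2 * c * V.natDegree < 2 ^ (d + 1) →
  ∃ m : ℕ, Odd m ∧ (2 ^ c : GaussianInt) ∣ (m : GaussianInt) * 2 ^ d * (N.eval 1 * u1 - N.eval 0 * u0)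

/-- the 2-adic statement -/
def S_two : Prop := ∀ (n : ℕ), 0 < n → ∀ (k : ℤ) (Φ : ℤ[X]) (Ψ : ℚ[X]), Sol n k Ψ →
  Φ.natDegree ≤ 8 * n - 1 → Φ.map (Int.castRingHom ℚ) = C ((64 ^ n * Nat.lcmUpto (4 * n) : ℕ) : ℚ) * Ψ →
  ∃ m : ℕ, Odd m ∧ ∃ b : ℤ, (m : ℚ) * 2 ^ kap n * qq n Ψ = b

/-! ## The coefficient of `π` -/

def S_k : Prop := ∀ (n : ℕ), 0 < n → ∀ (k : ℤ) (Ψ : ℚ[X]), Sol n k Ψ → Ψ.natDegree ≤ 8 * n - 1 → k = kk n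

def S_kpos : Prop := ∀ n : ℕ, 0 < kk n

def S_kmul : Prop := ∀ m n : ℕ, kk m * kk n ≤ kk (m + n)

/-- growth constant, `x = 7/36` in `GG` -/
def S_kup : Prop := ∀ n : ℕ, (kk n : ℝ) ≤ Real.exp (10.5405 * n)

/-- regular growth -/
def S_kreg : Prop := ∃ g : ℝ, 0 ≤ g ∧ g ≤ 10.5405 ∧ ∀ ε : ℝ, 0 < ε → ∀ᶠ n : ℕ in atTop,
  Real.exp ((g - ε) * n) ≤ kk n ∧ (kk n : ℝ) ≤ Real.exp ((g + ε) * n)

/-! ## Analysis -/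

def S_prim : Prop := ∀ (n : ℕ), 0 < n → ∀ (k : ℤ) (Ψ : ℚ[X]), Sol n k Ψ → ∀ z : ℂ, 0 < z.re → z ^ 2 ≠ 2 →
  HasDerivAt (Prim n k Ψ) (Fi n z) z

/-- the imaginary part of `Prim` at `1 + i` -/
def S_im : Prop := ∀ (n : ℕ), 0 < n → ∀ (k : ℤ) (Ψ : ℚ[X]),
  (Prim n k Ψ (1 + Complex.I)).im = (k : ℝ) * (Real.pi / 4) + (qq n Ψ : ℝ) / 4 ∧ (Prim n k Ψ 1).im = 0

/-- the vertex of the path -/
noncomputable def vv : ℂ := (17 + 7 * Complex.I) / 14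

/-- bound on the two segments -/
def S_seg : Prop := ∀ (n : ℕ) (z : ℂ), (z ∈ segment ℝ (1 + Complex.I) vv ∨ z ∈ segment ℝ vv 1) →
  0 < z.re ∧ z ^ 2 ≠ 2 ∧ ‖Fi n z‖ ≤ 2 * Real.exp (-(6.53 * n))

/-- the linear forms are small -/
def S_small : Prop := ∀ (n : ℕ), 0 < n → ∀ (k : ℤ) (Ψ : ℚ[X]), Sol n k Ψ →
  |(k : ℝ) * Real.pi + (qq n Ψ : ℝ)| ≤ 16 * Real.exp (-(6.53 * n))

/-! ## Denominators -/

def S_Om : Prop := ∀ n p : ℕ, 1000000 ≤ n → p ∈ Om n → p.Prime ∧ p ≠ 2 ∧ p ≤ 4 * n ∧ 8 * n < p * p ∧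
  ∃ A B D a b δ : ℕ, 3 * n = p * A + a ∧ 5 * n = p * B + b ∧ 4 * n + δ = p * D ∧ Odd D ∧ a + b + δ < p

def S_Mn : Prop := ∀ η : ℝ, 0 < η → ∀ᶠ n : ℕ in atTop,
  Real.exp ((4 - sav - η) * n) ≤ Mn n ∧ (Mn n : ℝ) ≤ Real.exp ((4 - sav + η) * n)

def S_sav : Prop := (0.2926 : ℝ) ≤ sav ∧ sav ≤ 4

/-- the forms become integral after multiplication by `2^kap * Mn` -/
def S_den : Prop := ∀ n : ℕ, 1000000 ≤ n → ∃ (Ψ : ℚ[X]), Sol n (kk n) Ψ ∧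
  ∃ b : ℤ, (2 ^ kap n * Mn n : ℚ) * qq n Ψ = b

/-! ## Conclusion -/

/-- from regular sequences of linear forms to a measure -/
def S_abs : Prop := ∀ (θ : ℝ), Irrational θ → ∀ (A B : ℕ → ℝ) (n0 : ℕ) (σ τ ε c : ℝ),
  (∀ n ≥ n0, ∃ a : ℤ, A n = a) → (∀ n ≥ n0, ∃ b : ℤ, B n = b) → (∀ n ≥ n0, 0 < A n) →
  (∀ n ≥ n0, |A n * θ + B n| ≤ Real.exp (-(τ * n))) → (∀ n ≥ n0, A n ≤ Real.exp (σ * n)) →
  (∀ n ≥ n0, A (n + 1) ≤ Real.exp (ε * n) * A n) → 0 < σ → 0 ≤ ε → 0 < τ - ε → σ < c * (τ - ε) →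
  ∀ᶠ q : ℕ in atTop, ∀ p : ℤ, Real.exp (-(c * Real.log q)) ≤ |q * θ - p|

/-- the measure -/
def S_main : Prop := ∃ q0 : ℕ, ∀ q : ℕ, q0 ≤ q → ∀ p : ℤ, (q : ℝ) ^ (-(6.05 : ℝ)) ≤ |Real.pi - p / q|

end Pool.Agent.H326R2.Pi
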