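import Pool.Agent.H41.Lib.H326R2.Pi.Final
import Pool.Agent.H41.Lib.H326R2.Pi.Inf
import Pool.Agent.H41.Lib.H326R2.Pi.T2
import Pool.Agent.H41.Lib.H89R2.PiT1
import Pool.Agent.H41.Lib.H726R2.PiA.T10
import Pool.Agent.H41.Lib.H509R2.PiT11
import Pool.Agent.H41.Lib.H52R2.PiT12
import Pool.Agent.H41.Lib.H204R2.PiT13
import Pool.Agent.H41.Lib.H1R2.PiM.T14
import Pool.Agent.H41.Lib.H303R2.PiT15
import Pool.Agent.H41.Lib.H930R2.Pi.T16
import Pool.Agent.H41.Lib.H30R2.PiT17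
import Pool.Agent.H41.Lib.H303R2.PiT18
import Pool.Agent.H41.Lib.H57R2.PiT19
import Pool.Agent.H41.Lib.H1R2.PiM.T20
import Pool.Agent.H41.Lib.H837R2.PI.T3
import Pool.Agent.H41.Lib.H847R2.PiT4
import Pool.Agent.H41.Lib.H326R2.Pi.T5
import Pool.Agent.H41.Lib.H52R2.PiT6
import Pool.Agent.H41.Lib.H409R2.Pi.Disc
import Pool.Agent.H41.Lib.H724R2.PiT9
/-! # Assembly -/

namespace Pool.Agent.H326R2.Pi

open Pool.Agent

theorem all_of (h2 : S_two) : S_main := by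
  have hterm : S_term := H837R2.PI.term T1.odd T1.low T2
  have hden : S_den := H57R2.PiT19.s_den hterm (H326R2.Pi.T5.p_good hterm H847R2.PiT4.uniq) h2
    (H724R2.PiT9.T9 H52R2.PiT6.S_hom_proof) H930R2.Pi.T16.p_Om
  have hsmall : S_small := H303R2.PiT15.t15 H52R2.PiT12.S_prim_proof H204R2.PiT13.t13 H1R2.PiM.s_seg
  have hreg : S_kreg := H509R2.PiT11.kreg H726R2.PiA.kpos H726R2.PiA.kmul H726R2.PiA.kup
  exact main_of hsmall hden hreg H726R2.PiA.kpos H30R2.PiT17.t17 H30R2.PiT17.Mn_pos H303R2.PiT18.t18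
    H1R2.PiM.s_abs

end Pool.Agent.H326R2.Pi
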