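import Mathlib

/-!
# Irrationality measure of `π`: definitions

The linear forms come from
`∫_{1-i}^{1+i} (x²-2x+2)^(3n) (x²-3x+2)^(5n) / (x^(4n+1) (x²-2)^(4n)) dx`.
With `w = x + 2/x`, `s = x - 2/x` (so `s² = w² - 8`, `dx/x = dw/s = ds/w`) the integrand is
`P(w) s^(-4n) dx/x`, `P(w) = (w-2)^(3n) (w-3)^(5n)`, and its primitive is
`k log x + Ψ(w) s^(1-4n)` where `Ψ` is the polynomial solution of
`(w²-8) Ψ' - (4n-1) w Ψ = P - k (w²-8)^(2n)`.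
-/

open Polynomial

namespace Pool.Agent.H326R2.Pi

/-- `P(w) = (w-2)^(3n) (w-3)^(5n)` -/
noncomputable def PP (R : Type*) [CommRing R] (n : ℕ) : R[X] := (X - 2) ^ (3 * n) * (X - 3) ^ (5 * n)

/-- the operator `Φ ↦ (w²-8) Φ' - (2m-1) w Φ` -/
noncomputable def LL {R : Type*} [CommRing R] (m : ℕ) (Φ : R[X]) : R[X] :=
  (X ^ 2 - 8) * derivative Φ - (2 * (m : R[X]) - 1) * X * Φ

/-- `Ψ` and `k` solve the equation of level `n` -/
def Sol (n : ℕ) (k : ℤ) (Ψ : ℚ[X]) : Prop :=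
  LL (2 * n) Ψ = PP ℚ n - C (k : ℚ) * (X ^ 2 - 8) ^ (2 * n)

/-- the rational part of the linear form: the form is `k π + 8 Ψ(2) / 16^n` -/
noncomputable def qq (n : ℕ) (Ψ : ℚ[X]) : ℚ := 8 * Ψ.eval 2 / 16 ^ n

/-- the integrand -/
noncomputable def Fi (n : ℕ) (z : ℂ) : ℂ :=
  (z ^ 2 - 2 * z + 2) ^ (3 * n) * (z ^ 2 - 3 * z + 2) ^ (5 * n) / (z ^ (4 * n + 1) * (z ^ 2 - 2) ^ (4 * n))

/-- the primitive -/
noncomputable def Prim (n : ℕ) (k : ℤ) (Ψ : ℚ[X]) (z : ℂ) : ℂ :=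
  (k : ℂ) * Complex.log z + (Polynomial.aeval (z + 2 / z) Ψ) * ((z - 2 / z) / (z - 2 / z) ^ (4 * n))

/-- geometric series `1/(1 - 2X²)` -/
noncomputable def geo2 (R : Type*) [CommRing R] : PowerSeries R :=
  PowerSeries.mk fun i => if Even i then 2 ^ (i / 2) else 0

/-- `(1+2X+2X²)^(3n) (1+3X+2X²)^(5n) (1-2X²)^(-4n)` -/
noncomputable def GG (R : Type*) [CommRing R] (n : ℕ) : PowerSeries R :=
  (((1 + 2 * X + 2 * X ^ 2) ^ (3 * n) * (1 + 3 * X + 2 * X ^ 2) ^ (5 * n) : R[X]) : PowerSeries R)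
    * geo2 R ^ (4 * n)

/-- the coefficient of `π` -/
noncomputable def kk (n : ℕ) : ℤ := PowerSeries.coeff (4 * n) (GG ℤ n)

/-- the intervals (in units of `1/60`) for `n/p`: `[j + 1/5, j + 1/4)` for `1 ≤ j ≤ 100` and
`[j + 2/3, j + 3/4)` for `0 ≤ j ≤ 100` -/
def Lf : Finset (ℕ × ℕ) :=
  ((Finset.Icc 1 100).image fun j => (60 * j + 12, 60 * j + 15)) ∪
  ((Finset.range 101).image fun j => (60 * j + 40, 60 * j + 45))

/-- primes `p ≤ 4n` with `u p ≤ 60 n < v p` -/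
def Pset (n : ℕ) (uv : ℕ × ℕ) : Finset ℕ :=
  (Finset.range (4 * n + 1)).filter fun p => p.Prime ∧ uv.1 * p ≤ 60 * n ∧ 60 * n < uv.2 * p

/-- the good primes -/
def Om (n : ℕ) : Finset ℕ := Lf.biUnion (Pset n)

/-- product of the good primes -/
def Dn (n : ℕ) : ℕ := ∏ p ∈ Om n, p

/-- the reduced common denominator (odd part) -/
def Mn (n : ℕ) : ℕ := Nat.lcmUpto (4 * n) / Dn n

/-- total saving -/
noncomputable def sav : ℝ := ∑ uv ∈ Lf, ((60 : ℝ) / uv.1 - 60 / uv.2)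

/-- the power of `2` lost: `2^(kap n) ≤ 2 * (1000 n²)` -/
def kap (n : ℕ) : ℕ := Nat.log 2 (1000 * n ^ 2)

end Pool.Agent.H326R2.Pi
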